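import Mathlib
import Pool.Agent.Lib.MP_b69e89_co_L.Few
import Pool.Agent.Lib.MP_b69e89_co_L.CayleyR
import Pool.Agent.Lib.MP_b69e89_co_L.CopiesR

/-!
# MP_b69e89_co : the closed form fails from excess `(2 + 9 / s) g` on if there are many vertices
-/

namespace KernelCount

open Function

theorem dense_size {s a g V0 : ℕ} (hs : 1 ≤ s) (ha : 2 ≤ a) (hg : (100 * a) ^ (90 * s) ≤ g)
    (hV0 : V0 ≤ ((100 * a ^ 2) ^ (s + 8 + 1)) ^ 4) : V0 * a * s ≤ g := by
  have h1 : 100 * a ^ 2 ≤ (100 * a) ^ 2 := by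
    rw [mul_pow]
    exact Nat.mul_le_mul_right _ (by norm_num)
  have h2 : V0 ≤ (100 * a) ^ (8 * (s + 9)) := by
    calc V0 ≤ ((100 * a ^ 2) ^ (s + 8 + 1)) ^ 4 := hV0
      _ ≤ (((100 * a) ^ 2) ^ (s + 8 + 1)) ^ 4 :=
        Nat.pow_le_pow_left (Nat.pow_le_pow_left h1 _) _
      _ = (100 * a) ^ (8 * (s + 9)) := by
        rw [← pow_mul, ← pow_mul]
        congr 1
        ring
  have h3 : a ≤ (100 * a) ^ 1 := by
    rw [pow_one]
    omega
  have h4 : s ≤ (100 * a) ^ s :=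
    (Nat.lt_two_pow_self).le.trans (Nat.pow_le_pow_left (by omega) s)
  calc V0 * a * s ≤ (100 * a) ^ (8 * (s + 9)) * (100 * a) ^ 1 * (100 * a) ^ s :=
        Nat.mul_le_mul (Nat.mul_le_mul h2 h3) h4
    _ = (100 * a) ^ (8 * (s + 9) + 1 + s) := by rw [← pow_add, ← pow_add]
    _ ≤ (100 * a) ^ (90 * s) := Nat.pow_le_pow_right (by omega) (by omega)
    _ ≤ g := hg

theorem dense_params {s b g V0 : ℕ} (hs : 1 ≤ s) (hb : 1 ≤ b) (hV : 1 ≤ V0)
    (h0 : V0 * (b + 1) * s ≤ g) : ∃ t, 1 ≤ t ∧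
      2 * ((b + 1) * (t * V0)) + (s + 8) * (t * V0 + 2 * g) <
        (s + 8) * ((b + 1) * (t * V0) + 2) ∧
      s * (b * (t * V0)) ≤ (2 * s + 9) * g ∧ (b + 1) * (t * V0) ≤ 9 * g := by
  obtain ⟨D, hD⟩ : ∃ D, (s + 6) * b = D + 2 := by
    refine ⟨(s + 6) * b - 2, ?_⟩
    have : 7 * 1 ≤ (s + 6) * b := Nat.mul_le_mul (by omega) hb
    omega
  have hD0 : 0 < D := by
    have : 7 * 1 ≤ (s + 6) * b := Nat.mul_le_mul (by omega) hb
    omega
  have hD1 : (s + 4) * b ≤ D := by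
    have : (s + 6) * b = (s + 4) * b + 2 * b := by ring
    omega
  have hpos : 0 < D * V0 := Nat.mul_pos hD0 hV
  obtain ⟨q, h1, h2⟩ : ∃ q, 2 * (s + 8) * g < D * V0 * (q + 1) ∧
      D * V0 * q ≤ 2 * (s + 8) * g :=
    ⟨2 * (s + 8) * g / (D * V0), Nat.lt_mul_div_succ _ hpos, Nat.mul_div_le _ _⟩
  obtain ⟨X, hX⟩ : ∃ X, X = q * V0 := ⟨_, rfl⟩
  have hN : (q + 1) * V0 = X + V0 := by rw [hX]; ring
  have h1' : 2 * (s + 8) * g < D * (X + V0) := by
    calc 2 * (s + 8) * g < D * V0 * (q + 1) := h1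
      _ = D * (X + V0) := by rw [← hN]; ring
  have h2' : (s + 4) * b * X ≤ 2 * (s + 8) * g := by
    calc (s + 4) * b * X ≤ D * X := Nat.mul_le_mul_right _ hD1
      _ = D * V0 * q := by rw [hX]; ring
      _ ≤ _ := h2
  have h3 : (b + 1) * V0 ≤ V0 * (b + 1) * s := by
    calc (b + 1) * V0 = V0 * (b + 1) * 1 := by ring
      _ ≤ _ := Nat.mul_le_mul_left _ hs
  refine ⟨q + 1, Nat.le_add_left 1 q, ?_, ?_, ?_⟩
  · rw [hN]
    have h5 : D * (X + V0) + 2 * (X + V0) = (s + 6) * b * (X + V0) := by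
      rw [hD]
      ring
    nlinarith
  · rw [hN]
    have h5 : (s + 4) * (s * (b * X)) ≤ (s + 4) * (2 * (s + 4) * g) := by
      calc (s + 4) * (s * (b * X)) = s * ((s + 4) * b * X) := by ring
        _ ≤ s * (2 * (s + 8) * g) := Nat.mul_le_mul_left _ h2'
        _ ≤ (s + 4) * (2 * (s + 4) * g) := by nlinarith
    have h6 : s * (b * X) ≤ 2 * (s + 4) * g := Nat.le_of_mul_le_mul_left h5 (by omega)
    have h7 : s * (b * V0) ≤ g := by
      calc s * (b * V0) ≤ s * ((b + 1) * V0) :=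
            Nat.mul_le_mul_left _ (Nat.mul_le_mul_right _ (by omega))
        _ = V0 * (b + 1) * s := by ring
        _ ≤ g := h0
    calc s * (b * (X + V0)) = s * (b * X) + s * (b * V0) := by ring
      _ ≤ 2 * (s + 4) * g + g := Nat.add_le_add h6 h7
      _ = (2 * s + 9) * g := by ring
  · rw [hN]
    have h5 : (s + 4) * (b * X) ≤ (s + 4) * (4 * g) := by
      calc (s + 4) * (b * X) = (s + 4) * b * X := by ring
        _ ≤ 2 * (s + 8) * g := h2'
        _ ≤ (s + 4) * (4 * g) := by nlinarith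
    have h6 : b * X ≤ 4 * g := Nat.le_of_mul_le_mul_left h5 (by omega)
    have h7 : X ≤ b * X := Nat.le_mul_of_pos_left _ hb
    have h8 : (b + 1) * (X + V0) = b * X + X + (b + 1) * V0 := by ring
    omega

/-- the closed form fails from excess `(2 + 9 / s) g` on if there are at least `9 g / a`
vertices -/
theorem closed_fails_dense {g s a l d : ℕ} (hs : 1 ≤ s) (ha : 2 ≤ a)
    (hg : (100 * a) ^ (90 * s) ≤ g) (hl : (2 * s + 9) * g ≤ s * l)
    (hd : 9 * g + a * d ≤ a * (2 * l)) :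
    kernelCount g (2 * l - d) (3 * l - d) < closed (2 * l - d) (3 * l - d) := by
  obtain ⟨V, E, fV, fE, f0, v1, v2, v3, v4, v5⟩ := exists_girth_gen a (s + 8) (by omega)
  have h0 := dense_size hs ha hg v2
  obtain ⟨b, rfl⟩ : ∃ b, a = b + 1 := ⟨a - 1, by omega⟩
  obtain ⟨t, ht, h1, h2, h3⟩ := dense_params hs (by omega : 1 ≤ b) v1 h0
  obtain ⟨f, hf, hfγ⟩ := copies_gen f0 (s + 8) t (Nat.card V) ((b + 1) * Nat.card V)
    (2 * (b + 1)) v5 v4 rfl v3
  have e : t * ((b + 1) * Nat.card V) = (b + 1) * (t * Nat.card V) := by ring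
  refine closed_fails_girth f (Nat.mul_pos ht v1) (fun v => by rw [hf]; omega) hfγ ?_ ?_ ?_
  · rw [e]
    exact h1
  · rw [e]
    have h4 : s * (b * (t * Nat.card V)) ≤ s * l := h2.trans hl
    have h5 : b * (t * Nat.card V) ≤ l := Nat.le_of_mul_le_mul_left h4 hs
    calc (b + 1) * (t * Nat.card V) = t * Nat.card V + b * (t * Nat.card V) := by ring
      _ ≤ _ := Nat.add_le_add_left h5 _
  · have h4 : (b + 1) * (t * Nat.card V + d) ≤ (b + 1) * (2 * l) := by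
      calc (b + 1) * (t * Nat.card V + d) = (b + 1) * (t * Nat.card V) + (b + 1) * d := by ring
        _ ≤ 9 * g + (b + 1) * d := Nat.add_le_add_right h3 _
        _ ≤ _ := hd
    exact Nat.le_of_mul_le_mul_left h4 (by omega)

end KernelCount
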